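import Mathlib

set_option autoImplicit false

namespace Pool.Agent.Results.MP_f2fc76_an.Yes

open Set Filter Topology

universe u

/-- a continuous semi-flow; only the times `t ≥ 0` matter -/
structure IsSemiflow {X : Type u} [MetricSpace X] (F : ℝ → X → X) : Prop where
  cont : ContinuousOn (fun p : ℝ × X => F p.1 p.2) (Ici 0 ×ˢ univ)
  zero : ∀ x, F 0 x = x
  add : ∀ t ≥ 0, ∀ s ≥ 0, ∀ x, F t (F s x) = F (t + s) x

/-- `z` is piecewise continuous on `[0, τ]` -/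
def Piecewise {X : Type u} [MetricSpace X] (z : ℝ → X) (τ : ℝ) : Prop :=
  ∃ (m : ℕ) (t : ℕ → ℝ), t 0 = 0 ∧ t m = τ ∧ ∀ j < m, t j < t (j + 1) ∧
    ∃ g : ℝ → X, ContinuousOn g (Icc (t j) (t (j + 1))) ∧ EqOn z g (Ioo (t j) (t (j + 1)))

/-- there is an `ε`-chain of the semi-flow from `x` to `y` inside `K` of duration `τ` -/
def FlowChain {X : Type u} [MetricSpace X] (F : ℝ → X → X) (K : Set X) (x y : X) (ε τ : ℝ) :
    Prop :=
  1 ≤ τ ∧ ∃ z : ℝ → X, Piecewise z τ ∧ z 0 = x ∧ z τ = y ∧ (∀ t ∈ Icc 0 τ, z t ∈ K) ∧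
    ∀ t₀ t₁, 0 ≤ t₀ → t₀ < t₁ → t₁ ≤ τ → t₁ - t₀ ≤ 1 → dist (F (t₁ - t₀) (z t₀)) (z t₁) < ε

/-- there is an `ε`-chain of the map from `x` to `y` inside `K` of duration `n` -/
def MapChain {X : Type u} [MetricSpace X] (g : X → X) (K : Set X) (x y : X) (ε : ℝ) (n : ℕ) :
    Prop :=
  1 ≤ n ∧ ∃ z : ℕ → X, z 0 = x ∧ z n = y ∧ (∀ i ≤ n, z i ∈ K) ∧
    ∀ i < n, dist (g (z i)) (z (i + 1)) < ε

/-- `y` is a limit chain point of `x` for the semi-flow -/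
def FlowLimit {X : Type u} [MetricSpace X] (F : ℝ → X → X) (x y : X) : Prop :=
  ∃ K, IsCompact K ∧ ∃ τ : ℝ → ℝ, Tendsto τ (𝓝[>] 0) atTop ∧ ∀ ε > 0, FlowChain F K x y ε (τ ε)

/-- `y` is a limit chain point of `x` for the map -/
def MapLimit {X : Type u} [MetricSpace X] (g : X → X) (x y : X) : Prop :=
  ∃ K, IsCompact K ∧ ∃ n : ℝ → ℕ, Tendsto n (𝓝[>] 0) atTop ∧ ∀ ε > 0, MapChain g K x y ε (n ε)

theorem lim_iff {α : Type} [Preorder α] [Nonempty α] {P : ℝ → α → Prop}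
    (hP : ∀ ε ε' a, ε ≤ ε' → P ε a → P ε' a) {c : ℝ → α} (hc : Tendsto c (𝓝[>] 0) atTop) :
    (∃ τ : ℝ → α, Tendsto τ (𝓝[>] 0) atTop ∧ ∀ ε > 0, P ε (τ ε)) ↔
      ∀ ε > 0, ∀ M, ∃ a, M ≤ a ∧ P ε a := by
  refine ⟨fun ⟨τ, h1, h2⟩ ε hε M => ?_, fun h => ?_⟩
  · obtain ⟨δ, h3, h4⟩ := ((h1.eventually_ge_atTop M).and (Ioo_mem_nhdsGT hε)).exists
    exact ⟨_, h3, hP _ _ _ h4.2.le (h2 δ h4.1)⟩
  · choose! τ h1 h2 using fun ε hε => h ε hε (c ε)
    exact ⟨τ, tendsto_atTop_mono' _ (eventually_mem_nhdsWithin.mono h1) hc, h2⟩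

variable {X : Type u} [MetricSpace X] {F : ℝ → X → X}

theorem unif (hF : IsSemiflow F) {K : Set X} (hK : IsCompact K) (S : ℝ) {ε : ℝ} (hε : 0 < ε) :
    ∃ δ > 0, ∀ s ∈ Icc 0 S, ∀ s' ≥ 0, ∀ b ∈ K, ∀ a, |s - s'| < δ → dist b a < δ →
      dist (F s b) (F s' a) < ε := by
  have hc : Continuous fun p : ℝ × X => F (max p.1 0) p.2 :=
    hF.cont.comp_continuous (f := fun p : ℝ × X => (max p.1 0, p.2)) (by fun_prop)
      fun p => ⟨mem_Ici.2 (le_max_right _ _), trivial⟩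
  obtain ⟨δ, hδ, h⟩ := Metric.mem_uniformity_dist.1
    (((isCompact_Icc (a := 0) (b := S)).prod hK).uniformContinuousAt_of_continuousAt _
      (fun _ _ => hc.continuousAt) (Metric.dist_mem_uniformity hε))
  refine ⟨δ, hδ, fun s hs s' hs' b hb a h1 h2 => ?_⟩
  have := h (a := (s, b)) (b := (s', a)) (max_lt h1 h2) ⟨hs, hb⟩
  simpa [max_eq_left hs.1, max_eq_left hs'] using this

theorem long (hF : IsSemiflow F) {K : Set X} (hK : IsCompact K) (n : ℕ) : ∀ ε > 0, ∃ δ > 0,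
    ∀ (z : ℝ → X) (τ : ℝ), (∀ t ∈ Icc 0 τ, z t ∈ K) → (∀ t₀ t₁, 0 ≤ t₀ → t₀ < t₁ → t₁ ≤ τ →
      t₁ - t₀ ≤ 1 → dist (F (t₁ - t₀) (z t₀)) (z t₁) < δ) → ∀ t₀ t₁, 0 ≤ t₀ → t₀ < t₁ → t₁ ≤ τ →
      t₁ - t₀ ≤ n + 1 → dist (F (t₁ - t₀) (z t₀)) (z t₁) < ε := by
  induction n with
  | zero => exact fun ε hε => ⟨ε, hε, fun z τ _ h => by simpa using h⟩
  | succ n ih =>
    intro ε hε
    obtain ⟨δ, hδ, h1⟩ := unif hF hK 1 (half_pos hε)
    obtain ⟨δ', hδ', h2⟩ := ih δ hδ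
    refine ⟨min δ' (ε / 2), lt_min hδ' (half_pos hε), fun z τ hz h t₀ t₁ a1 a2 a3 a4 => ?_⟩
    by_cases h3 : t₁ - t₀ ≤ 1
    · linarith [h t₀ t₁ a1 a2 a3 h3, min_le_right δ' (ε / 2)]
    push Not at h3
    push_cast at a4
    have h4 := h2 z τ hz (fun a b c d e f => (h a b c d e f).trans_le (min_le_left _ _))
      t₀ (t₁ - 1) a1 (by linarith) (by linarith) (by linarith)
    have h5 := h (t₁ - 1) t₁ (by linarith) (by linarith) a3 (by linarith)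
    have h6 := h1 1 ⟨zero_le_one, le_rfl⟩ 1 zero_le_one _ (hz (t₁ - 1) ⟨by linarith, by linarith⟩)
      _ (by simpa using hδ) ((dist_comm _ _).trans_lt h4)
    rw [hF.add 1 zero_le_one _ (by linarith), show 1 + (t₁ - 1 - t₀) = t₁ - t₀ by ring] at h6
    rw [sub_sub_cancel] at h5
    linarith [dist_triangle_left (F (t₁ - t₀) (z t₀)) (z t₁) (F 1 (z (t₁ - 1))),
      min_le_right δ' (ε / 2)]

theorem steps (hF : IsSemiflow F) {K : Set X} (hK : IsCompact K) {T : ℝ} (hT : 0 < T) (n : ℕ) :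
    ∀ ε > 0, ∃ δ > 0, ∀ (w : ℕ → X) (N : ℕ), (∀ i ≤ N, w i ∈ K) →
      (∀ i < N, dist (F T (w i)) (w (i + 1)) < δ) → ∀ i, ∀ j ≤ n, i + j ≤ N →
      dist (w (i + j)) (F (j * T) (w i)) < ε := by
  induction n with
  | zero => exact fun ε hε => ⟨ε, hε, fun w N _ _ i j hj _ => by
      obtain rfl : j = 0 := by omega
      simpa [hF.zero] using hε⟩
  | succ n ih =>
    intro ε hε
    obtain ⟨δ, hδ, h1⟩ := unif hF hK T (half_pos hε)
    obtain ⟨δ', hδ', h2⟩ := ih δ hδ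
    refine ⟨min δ' (ε / 2), lt_min hδ' (half_pos hε), fun w N hw h i j a1 a2 => ?_⟩
    rcases j with _ | j
    · simpa [hF.zero] using hε
    have h4 := h2 w N hw (fun a b => (h a b).trans_le (min_le_left _ _)) i j (by omega) (by omega)
    have h6 := h1 T ⟨hT.le, le_rfl⟩ T hT.le _ (hw (i + j) (by omega)) _ (by simpa using hδ) h4
    rw [hF.add T hT.le _ (by positivity), show T + j * T = (j + 1 : ℕ) * T by push_cast; ring] at h6
    have h7 : dist (F T (w (i + j))) (w (i + (j + 1))) < _ := h (i + j) (by omega)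
    linarith [dist_triangle_left (w (i + (j + 1))) (F ((j + 1 : ℕ) * T) (w i)) (F T (w (i + j))),
      min_le_right δ' (ε / 2)]

theorem result (X : Type u) [MetricSpace X] (F : ℝ → X → X) (hF : IsSemiflow F) (T : ℝ)
    (hT : 0 < T) (x y : X) : FlowLimit F x y ↔ MapLimit (F T) x y := by
  have e1 : ∀ K, _ := fun K => lim_iff (P := FlowChain F K x y)
    (fun ε ε' a h ⟨h1, z, h2, h3, h4, h5, h6⟩ =>
      ⟨h1, z, h2, h3, h4, h5, fun a b c d e f => (h6 a b c d e f).trans_le h⟩)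
    tendsto_inv_nhdsGT_zero
  have e2 : ∀ K, _ := fun K => lim_iff (P := MapChain (F T) K x y)
    (fun ε ε' a h ⟨h1, z, h2, h3, h4, h5⟩ => ⟨h1, z, h2, h3, h4, fun a b => (h5 a b).trans_le h⟩)
    (tendsto_nat_floor_atTop.comp (tendsto_inv_nhdsGT_zero (𝕜 := ℝ)))
  constructor
  · rintro ⟨K, hK, h⟩
    refine ⟨K, hK, (e2 K).2 fun ε hε M => ?_⟩
    obtain ⟨δ, hδ, h1⟩ := unif hF hK T (half_pos hε)
    obtain ⟨n, hn⟩ := exists_nat_ge (2 * T)
    obtain ⟨δ', hδ', h2⟩ := long hF hK n _ (half_pos hε)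
    obtain ⟨m, hm⟩ := exists_nat_gt (T / δ)
    obtain ⟨τ, h3, -, z, -, h4, h5, h6, h7⟩ := (e1 K).1 h δ' hδ' ((M + m + 1 : ℕ) * T)
    set k := ⌊τ / T⌋₊ with hk
    have h8 : M + m + 1 ≤ k := Nat.le_floor ((le_div_iff₀ hT).2 h3)
    have hτ : 0 < τ := lt_of_lt_of_le (by positivity) h3
    have hk0 : (0 : ℝ) < k := by exact_mod_cast (by omega : 0 < k)
    have h9 : k * T ≤ τ := (le_div_iff₀ hT).1 (Nat.floor_le (by positivity))
    have h10 : τ < (k + 1) * T := (div_lt_iff₀ hT).1 (Nat.lt_floor_add_one _)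
    have h11 : T ≤ τ / k := (le_div_iff₀ hk0).2 (by linarith)
    have h12 : T < k * δ := by
      have : (m : ℝ) ≤ k := by exact_mod_cast (by omega : m ≤ k)
      rw [div_lt_iff₀ hδ] at hm
      nlinarith
    have h13 : τ / k < T + δ := (div_lt_iff₀ hk0).2 (by linarith)
    have h14 : τ / k ≤ 2 * T := (div_le_iff₀ hk0).2 (by
      have : (1 : ℝ) ≤ k := by exact_mod_cast (by omega : 1 ≤ k)
      nlinarith)
    have h15 : ∀ i ≤ k, (i : ℝ) * (τ / k) ∈ Icc 0 τ := fun i hi => ⟨by positivity, by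
      calc (i : ℝ) * (τ / k) ≤ k * (τ / k) := by gcongr
        _ = τ := mul_div_cancel₀ _ hk0.ne'⟩
    refine ⟨k, by omega, by omega, fun i => z (i * (τ / k)), by simpa using h4,
      by dsimp only; rwa [mul_div_cancel₀ _ hk0.ne'], fun i hi => h6 _ (h15 i hi), fun i hi => ?_⟩
    have e : ((i + 1 : ℕ) : ℝ) * (τ / k) - i * (τ / k) = τ / k := by push_cast; ring
    have h16 := h2 z τ h6 h7 (i * (τ / k)) ((i + 1 : ℕ) * (τ / k)) (by positivity)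
      (by linarith) (h15 _ hi).2 (by linarith)
    have h17 := h1 T ⟨hT.le, le_rfl⟩ (τ / k) (by positivity) _ (h6 _ (h15 i hi.le)) _
      (abs_lt.2 ⟨by linarith, by linarith⟩) ((dist_self _).trans_lt hδ)
    rw [e] at h16
    linarith [dist_triangle (F T (z (i * (τ / k)))) (F (τ / k) (z (i * (τ / k))))
      (z ((i + 1 : ℕ) * (τ / k)))]
  · rintro ⟨K, hK, h⟩
    refine ⟨(fun p : ℝ × X => F p.1 p.2) '' Icc 0 T ×ˢ K, (isCompact_Icc.prod hK).image_of_continuousOn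
      (hF.cont.mono fun p hp => ⟨hp.1.1, trivial⟩), (e1 _).2 fun ε hε M => ?_⟩
    obtain ⟨δ, hδ, h1⟩ := unif hF hK T hε
    obtain ⟨n, hn⟩ := exists_nat_ge (1 / T + 1)
    obtain ⟨δ', hδ', h2⟩ := steps hF hK hT n δ hδ
    obtain ⟨m, hm⟩ := exists_nat_ge (max M 1 / T)
    obtain ⟨N, h3, -, w, h4, h5, h6, h7⟩ := (e2 K).1 h δ' hδ' m
    have h8 : max M 1 ≤ N * T := by
      have : (m : ℝ) ≤ N := by exact_mod_cast h3
      rw [div_le_iff₀ hT] at hm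
      nlinarith
    have h9 : ∀ t ≥ 0, t - ⌊t / T⌋₊ * T ∈ Ico 0 T := fun t ht =>
      ⟨sub_nonneg.2 ((le_div_iff₀ hT).1 (Nat.floor_le (by positivity))),
        by linarith [(div_lt_iff₀ hT).1 (Nat.lt_floor_add_one (t / T))]⟩
    have h10 : ∀ t ≤ N * T, ⌊t / T⌋₊ ≤ N := fun t ht =>
      Nat.floor_le_of_le ((div_le_iff₀ hT).2 ht)
    refine ⟨N * T, le_of_max_le_left h8, le_of_max_le_right h8,
      fun t => F (t - ⌊t / T⌋₊ * T) (w ⌊t / T⌋₊), ⟨N, fun j => j * T, by simp, rfl, fun j _ =>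
        ⟨by push_cast; linarith, fun t => F (t - j * T) (w j), ?_, fun t ht => ?_⟩⟩,
      by simp [hF.zero, h4], by simp [mul_div_cancel_right₀ _ hT.ne', hF.zero, h5],
      fun t ht => ⟨(_, _), ⟨Ico_subset_Icc_self (h9 t ht.1), h6 _ (h10 t ht.2)⟩, rfl⟩,
      fun t₀ t₁ a1 a2 a3 a4 => ?_⟩
    · exact hF.cont.comp (f := fun t : ℝ => (t - j * T, w j)) (by fun_prop)
        fun t ht => ⟨sub_nonneg.2 ht.1, trivial⟩
    · have : ⌊t / T⌋₊ = j := (Nat.floor_eq_iff (div_nonneg (le_trans (by positivity) ht.1.le)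
        hT.le)).2 ⟨(le_div_iff₀ hT).2 ht.1.le, (div_lt_iff₀ hT).2 (by exact_mod_cast ht.2)⟩
      simp only [this]
    · obtain ⟨j, hj⟩ := Nat.exists_eq_add_of_le
        (Nat.floor_mono (div_le_div_of_nonneg_right a2.le hT.le) : ⌊t₀ / T⌋₊ ≤ ⌊t₁ / T⌋₊)
      have b0 := h9 t₀ a1
      have b1 := h9 t₁ (by linarith)
      have b2 : j ≤ n := by
        have c1 := b1.1
        rw [hj] at c1
        push_cast at c1
        have c2 : (j : ℝ) * T ≤ (1 / T + 1) * T := by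
          rw [add_mul, one_div_mul_cancel hT.ne']
          linarith [b0.2]
        exact_mod_cast (le_of_mul_le_mul_right c2 hT).trans hn
      have b3 := h2 w N h6 h7 ⌊t₀ / T⌋₊ j b2 (hj ▸ h10 t₁ a3)
      have b4 := h1 _ (Ico_subset_Icc_self b1) _ b1.1 _ (h6 _ (h10 t₁ a3)) _ (by simpa using hδ)
        (hj ▸ b3)
      rw [hF.add _ b1.1 _ (by positivity)] at b4
      rw [hF.add _ (by linarith) _ b0.1, dist_comm]
      convert b4 using 3
      rw [hj]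
      push_cast
      ring

end Pool.Agent.Results.MP_f2fc76_an.Yes
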